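import Pool.Agent.Lib.MP_8a95e3_al.RC

/-! Ring forms of the elements K(p,q) and of their certificates. -/
namespace E4.RC

section
variable {R : Type*} [Ring R]

/-- `tau(g) = pqg + g'qp + g'pgq + qg'pg`, the value of `K(p,q)` on `g + g'` -/
def tau4 (p q g g' : R) : R := p * (q * g) + (g' * (q * p) + (g' * (p * (g * q)) + q * (g' * (p * g))))

def sig4 (p q g g' : R) : R := p * (q * g) + g' * (p * (g * q))

def sigs4 (p q g g' : R) : R := g' * (q * p) + q * (g' * (p * g))

def tau (p q : R) (g : Rˣ) : R := tau4 p q g ((g⁻¹ : Rˣ) : R)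

def sig (p q : R) (g : Rˣ) : R := sig4 p q g ((g⁻¹ : Rˣ) : R)

def sigs (p q : R) (g : Rˣ) : R := sigs4 p q g ((g⁻¹ : Rˣ) : R)

def tauP (p q g g' : List (List ℕ)) : List (List ℕ) :=
  addP (mulP p (mulP q g)) (addP (mulP g' (mulP q p)) (addP (mulP g' (mulP p (mulP g q)))
    (mulP q (mulP g' (mulP p g)))))

def sigP (p q g g' : List (List ℕ)) : List (List ℕ) :=
  addP (mulP p (mulP q g)) (mulP g' (mulP p (mulP g q)))

def sigsP (p q g g' : List (List ℕ)) : List (List ℕ) :=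
  addP (mulP g' (mulP q p)) (mulP q (mulP g' (mulP p g)))

variable (ρ : ℕ → R)

theorem ev_tau (p q g g' : List (List ℕ)) :
    evT ρ (tauP p q g g') = tau4 (evT ρ p) (evT ρ q) (evT ρ g) (evT ρ g') := by
  simp only [tauP, tau4, ev_add, ev_mul]

theorem ev_sig (p q g g' : List (List ℕ)) :
    evT ρ (sigP p q g g') = sig4 (evT ρ p) (evT ρ q) (evT ρ g) (evT ρ g') := by
  simp only [sigP, sig4, ev_add, ev_mul]

theorem ev_sigs (p q g g' : List (List ℕ)) :
    evT ρ (sigsP p q g g') = sigs4 (evT ρ p) (evT ρ q) (evT ρ g) (evT ρ g') := by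
  simp only [sigsP, sigs4, ev_add, ev_mul]

variable {ρ} {G : Subgroup Rˣ}

end

end E4.RC
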