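import Pool.Agent.Lib.MP_8a95e3_al.RC2
import Pool.Agent.Lib.MP_8a95e3_al.RK.Defs

set_option linter.unusedSimpArgs false

namespace E4.RC

def c_esym : List ℕ := [
  0x10000000000130000000000010000000001330984000000000018000000000001000000000013000000000133009300000001339800000000000100000000001200000000000100020000000000010000000000010000000000120000000001930083000000000122000000000001000000000012000000000019008300000000001200000000001200000000001200000000000108940000000139380000000000010000000000120000000000010002000000000138000000000001000000000012000000000129000200000000013800000000000100000000001200000000013900020000001393380000000000010000000000120000000000010002000000000001000000000133000000000001000000000133098400000000129200000000000100000000001200000000000100830000001389330000000000010000000000120000000000010002000000000013000000000001000000000012000000001289000200000001389300000000000100000000001200000000000100020000000000010000000000010000000000120000000000010984000000001383000000000001000000000012000000000019000200000000018300000000000100000000001200000000000100930000000000130000000000010000000001330000000000180093000000000013000000000012000000000001000000000001089400000000139300000000000100000000001200000000001800020000000001330000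0000000100000000001200000000018900020000000000010000000000010000000000120000000000180093000000000122000000000001000000000013000000000198000200000000000100000000000100000000001200000000019800020000000139830000000000010000000000120000000000010002000000000001000000000012000000000001000000000001098400000000013800000000000100000000001200000000001900020000000000120000000000010000000000120000000000010984000000000001000000000012000000000001000000000013098400000000000100000000000100000000001200000000013800930000000001290000000000010000000000120000000000010083000000000019000000000001000000000013000000000013008300000000001900000000000100000000001200000000001300830000000013890000000000010000000000120000000000010002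
  ]

theorem ok_esym : chy (addP (addP (mulP (addP [[2]] [[3]]) (mulP [[8]] (mulP [[9]] (addP [[2]] [[]])))) (mulP (addP [[2]] [[3]]) (mulP [[9]] (mulP (addP [[2]] [[]]) [[8]])))) (addP (mulP (addP [[2]] [[3]]) (mulP [[9]] (mulP [[8]] (addP [[2]] [[]])))) (mulP (addP [[2]] [[3]]) (mulP [[8]] (mulP (addP [[2]] [[]]) [[9]]))))) c_esym = true := by decide +kernel

theorem esym {R : Type*} [Ring R] {G : Subgroup Rˣ} (h2 : ∀ r : R, r + r = 0)
    (hc : ∀ u : Rˣ, u ∈ G → ((u : R) + 1) ^ 3 = 0) {x : Rˣ} (hx : x ∈ G) {p q : R} (hp : PL G p) (hq : PL G q) :
    ((((x : R) + ((x⁻¹ : Rˣ) : R)) * (p * (q * ((x : R) + 1)))) + (((x : R) + ((x⁻¹ : Rˣ) : R)) * (q * (((x : R) + 1) * p))))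
      = ((((x : R) + ((x⁻¹ : Rˣ) : R)) * (q * (p * ((x : R) + 1)))) + (((x : R) + ((x⁻¹ : Rˣ) : R)) * (p * (((x : R) + 1) * q)))) := by
  have h := chy_eq (mkOk h2 hc hx hx hx hp hq (PL.zero G) (PL.zero G)) _ _ c_esym ok_esym
  simp only [ev_add, ev_mul, ev_tau, ev_sig, ev_sigs, evT, evL, rho, mul_one, add_zero] at h
  simpa only [tau, sig, sigs, Units.val_mul, mul_inv_rev, inv_inv, mul_assoc] using h

end E4.RC
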