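import Pool.Agent.Lib.MP_8a95e3_al.RC2
import Pool.Agent.Lib.MP_8a95e3_al.RK.Defs

set_option linter.unusedSimpArgs false

namespace E4.RC

def c_esq : List ℕ := [
  0x100000000000100000000001200000001229200830000000019830000000000010000000000120000000000010002000000013983000000000001000000000012000000000001000200000000000100000000000100000000001200000001339200830000000001280000000000010000000001220000000000010093000000013928000000000001000000000012000000000001000200000000001800000000000100000000001300000000013300930000000133980000000000010000000000120000000000010002000000000001000000000001000000000012000000001398000200000000122800000000000100000000001300000000001900020000000000010000000000010000000000120000000001920083000000000001000000000001000000000013000000000019008300000000000100000000000100000000001300000000018300930000000000120000000000010000000000120000000000180093000000000122000000000001000000000012000000000018009300000000000100000000000100000000001300000000183300930000000013930000000000010000000000130000000000010083000000000012000000000001000000000012000000000001098400000000000100000000000100000000001200000000013800930000000001220000000000010000000000120000000000010984000000139822000000000001000000000012000000000001000200000000001200000000000100000000001200000000133900830000000000010000000000130000000000010000000001330984000000013982000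00000000100000000001200000000000100020000000000010000000000010000000000120000000001980002000000001383000000000001000000000012000000000019000200000000000100000000000100000000001300000000193300830000000013380000000000010000000000120000000000190002000000000018000000000001000000000012000000000012009300000000012200000000000100000000001300000000018900020000000000010000000000010000000000120000000001890002000000013893000000000001000000000012000000000001000200000000000100000000000100000000001200000000000109840000000000190000000000010000000000120000000000120083000000000139000000000001000000000013000000000001008300000000133900000000000100000000001200000000001800020000000000190000000000010000000000120000000000180002000000000129000000000001000000000012000000000001008300000000001900000000000100000000001200000000000100830000000013890000000000010000000000120000000000010002,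
  0x138922000000000001000000000012000000000001000200000001892200000000000100000000001200000000000100020000000000120000000000010000000000120000000000130894000000000001000000000012000000000001000000000001098400000000000100000000000100000000001200000000192800020000000012820000000000010000000000130000000000010093000000001282000000000001000000000012000000000012009300000000012200000000000100000000001200000000000108940000000000120000000000120000000000010000000000120984
  ]

theorem ok_esq : chy (addP (addP (mulP (addP [[2, 2]] [[3, 3]]) (mulP [[8]] (mulP [[9]] (addP [[2, 2]] [[]])))) (mulP (addP [[2, 2]] [[3, 3]]) (mulP [[9]] (mulP (addP [[2, 2]] [[]]) [[8]])))) []) c_esq = true := by decide +kernel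

theorem esq {R : Type*} [Ring R] {G : Subgroup Rˣ} (h2 : ∀ r : R, r + r = 0)
    (hc : ∀ u : Rˣ, u ∈ G → ((u : R) + 1) ^ 3 = 0) {x : Rˣ} (hx : x ∈ G) {p q : R} (hp : PL G p) (hq : PL G q) :
    (((((x : R) * (x : R)) + (((x⁻¹ : Rˣ) : R) * ((x⁻¹ : Rˣ) : R))) * (p * (q * (((x : R) * (x : R)) + 1)))) + ((((x : R) * (x : R)) + (((x⁻¹ : Rˣ) : R) * ((x⁻¹ : Rˣ) : R))) * (q * ((((x : R) * (x : R)) + 1) * p))))
      = 0 := by
  have h := chy_eq (mkOk h2 hc hx hx hx hp hq (PL.zero G) (PL.zero G)) _ _ c_esq ok_esq
  simp only [ev_add, ev_mul, ev_tau, ev_sig, ev_sigs, evT, evL, rho, mul_one, add_zero] at h
  simpa only [tau, sig, sigs, Units.val_mul, mul_inv_rev, inv_inv, mul_assoc] using h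

end E4.RC
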