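import Pool.Agent.Lib.MP_8a95e3_al.RC2
import Pool.Agent.Lib.MP_8a95e3_al.RK.Defs

set_option linter.unusedSimpArgs false

namespace E4.RC

def c_kcube : List ℕ := [
  0x122000000000001000000000013000000000198000200000000012200000000000100000000001200000000001900830000000000120000000001330000000000120000000000130984000000000012000000000001000000000013000000000193008300000000000100000000013300000000000100000000013309840000000001380000000000010000000000120000000001290002000000139338000000000001000000000012000000000001000200000000013800000000000100000000001200000000013900020000000139380000000000010000000000120000000000010002000000000012000000000012000000000012000000000001089400000000129200000000000100000000001200000000000100830000000000130000000000120000000001330000000000010894000000138293000000000001000000000012000000000001000200000000129300000000000100000000001200000000000100830000000000130000000000010000000000130000000001380093000000138933000000000001000000000012000000000001000200000000001300000000000100000000001200000000128900020000000000010000000000010000000000120000000012890002000000000129000000000001000000000012000000000013008300000000019300000000000100000000001200000000001800020000000013930000000000010000000000120000000000180002000000000013000000000001000000000133000000000018009300000000013300000000000100000000001200000000018900020000000013890000000000010000000000120000000000010002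
  ]

theorem ok_kcube : chy (addP (mulP [[2]] (mulP (tauP [[8]] [[9]] [[2]] [[3]]) (addP [[2]] [[]]))) (addP (mulP (addP [[2]] [[3]]) (mulP [[8]] (mulP [[9]] (addP [[2]] [[]])))) (mulP (addP [[2]] [[3]]) (mulP [[9]] (mulP (addP [[2]] [[]]) [[8]]))))) c_kcube = true := by decide +kernel

theorem kcube {R : Type*} [Ring R] {G : Subgroup Rˣ} (h2 : ∀ r : R, r + r = 0)
    (hc : ∀ u : Rˣ, u ∈ G → ((u : R) + 1) ^ 3 = 0) {x : Rˣ} (hx : x ∈ G) {p q : R} (hp : PL G p) (hq : PL G q) :
    ((x : R) * ((tau p q x) * ((x : R) + 1)))
      = ((((x : R) + ((x⁻¹ : Rˣ) : R)) * (p * (q * ((x : R) + 1)))) + (((x : R) + ((x⁻¹ : Rˣ) : R)) * (q * (((x : R) + 1) * p)))) := by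
  have h := chy_eq (mkOk h2 hc hx hx hx hp hq (PL.zero G) (PL.zero G)) _ _ c_kcube ok_kcube
  simp only [ev_add, ev_mul, ev_tau, ev_sig, ev_sigs, evT, evL, rho, mul_one, add_zero] at h
  simpa only [tau, sig, sigs, Units.val_mul, mul_inv_rev, inv_inv, mul_assoc] using h

end E4.RC
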