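import Pool.Agent.Lib.MP_8a95e3_al.RC2
import Pool.Agent.Lib.MP_8a95e3_al.RK.Defs

set_option linter.unusedSimpArgs false

namespace E4.RC

def c_psi : List ℕ := [
  0x100000000000100000000001400000000134200020000000013420000000000010000000000140000000000010002000000000001000000000001000000000014000000000143000200000000124200000000000100000000001300000000001500020000000000120000000000010000000000140000000000010002000000000015000000000001000000000124000000000015000200000000153500000000000100000000001400000000000100020000000001550000000000010000000001340000000000010002000000000135000000000001000000000012000000000134000200000000153500000000000100000000013400000000000100020000000000150000000000010000000001240000000001520002000000000001000000000001000000000014000000000142000200000000001500000000000100000000001400000000015200020000000015240000000000010000000000140000000000010002000000000152000000000001000000000144000000000001000200000000014200000000000100000000012500000000000100020000000000010000000000010000000000140000000000120002000000000001000000000001000000000012000000000125000200000000001400000000000100000000013500000000001300020000000013530000000000010000000000120000000000010002000000001552000000000001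0000000000140000000000010002000000000001000000000001000000000012000000000015000200000000001500000000000100000000001400000000155200020000000015250000000000010000000000140000000000010002000000000135000000000001000000000012000000000001000200000000014400000000000100000000001500000000001300020000000000010000000000010000000000140000000000130002000000000013000000000001000000000014000000000013000200000000015500000000000100000000134400000000000100020000000000140000000000010000000001250000000000010002000000000015000000000001000000000134000000000001000200000000001500000000000100000000001400000000000100020000000000010000000000010000000000120000000000010002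
  ]

theorem ok_psi : chy (addP (addP (mulP (addP [[4]] [[]]) (mulP (addP [[4, 4]] [[]]) [[2]])) (addP (mulP [[3]] (mulP (addP [[4, 4]] [[]]) (addP [[4]] [[]]))) (addP (mulP [[3]] (mulP (addP [[4]] [[]]) (mulP [[2]] (addP [[4, 4]] [[]])))) (mulP (addP [[4, 4]] [[]]) (mulP [[3]] (mulP (addP [[4]] [[]]) [[2]])))))) (mulP (addP [[4]] [[]]) (mulP (addP [[2]] [[3]]) (addP [[4, 4]] [[]])))) c_psi = true := by decide +kernel

theorem psi {R : Type*} [Ring R] {G : Subgroup Rˣ} (h2 : ∀ r : R, r + r = 0)
    (hc : ∀ u : Rˣ, u ∈ G → ((u : R) + 1) ^ 3 = 0) {x y : Rˣ} (hx : x ∈ G) (hy : y ∈ G) :
    ((((y : R) + 1) * ((((y : R) * (y : R)) + 1) * (x : R))) + ((((x⁻¹ : Rˣ) : R) * ((((y : R) * (y : R)) + 1) * ((y : R) + 1))) + ((((x⁻¹ : Rˣ) : R) * (((y : R) + 1) * ((x : R) * (((y : R) * (y : R)) + 1)))) + ((((y : R) * (y : R)) + 1) * (((x⁻¹ : Rˣ) : R) * (((y : R) + 1) * (x : R)))))))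
      = (((y : R) + 1) * (((x : R) + ((x⁻¹ : Rˣ) : R)) * (((y : R) * (y : R)) + 1))) := by
  have h := chy_eq (mkOk h2 hc hx hy hx (PL.zero G) (PL.zero G) (PL.zero G) (PL.zero G)) _ _ c_psi ok_psi
  simp only [ev_add, ev_mul, ev_tau, ev_sig, ev_sigs, evT, evL, rho, mul_one, add_zero] at h
  simpa only [tau, sig, sigs, Units.val_mul, mul_inv_rev, inv_inv, mul_assoc] using h

end E4.RC
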