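import Pool.Agent.Lib.MP_8a95e3_al.RC2
import Pool.Agent.Lib.MP_8a95e3_al.RK.Defs

set_option linter.unusedSimpArgs false

namespace E4.RC

def c_th2 : List ℕ := [
  0x1200000000000100000000001400000000001200020000000001550000000000010000000001240000000000010002000000000155000000000001000000001244000000000001000200000000001400000000000100000000012500000000000100020000000000130000000000010000000000120000000001250002000000000015000000000001000000000014000000001553000200000000153400000000000100000000001400000000000100020000000000150000000000010000000000140000000001530002000000001353000000000001000000000012000000000001000200000000001300000000000100000000001200000000013500020000000015350000000000010000000000140000000000010002000000000001000000000001000000000014000000001342000200000000001400000000000100000000013500000000001300020000000135240000000000010000000000120000000000010002000000000134000000000001000000000012000000001335000200000001353300000000000100000000001200000000000100020000000001440000000000010000000001350000000000130002000000000144000000000001000000001335000000000001000200000000001500000000000100000000001200000000000100020000000000010000000000010000000000140000000000130002000000000014000000000001000000000012000000000001000200000000001400000000000100000000133500000000000100020000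000000010000000000010000000000140000000014220002000000000125000000000001000000000013000000000014000200000000152400000000000100000000001400000000000100020000000015250000000000010000000000140000000000010002000000000014000000000001000000000135000000000001000200000000001300000000000100000000001400000000001300020000000000010000000000010000000000120000000000140002000000000015000000000001000000000134000000000001000200000000015300000000000100000000001400000000000100020000000000130000000000010000000000120000000000150002000000000015000000000001000000000014000000001552000200000000015200000000000100000000001400000000000100020000000001550000000000010000000013440000000000010002000000000015000000000001000000000014000000000001000200000000000100000000000100000000001400000000000100020000000000010000000000010000000000120000000000010002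
  ]

theorem ok_th2 : chy (addP (mulP (addP [[2]] [[3]]) (mulP (addP [[4]] [[5]]) (mulP (addP [[2]] [[]]) (addP [[4]] [[]])))) (mulP (addP [[2]] [[3]]) (mulP (addP [[4]] [[]]) (mulP (addP [[2]] [[]]) (addP [[4]] [[5]]))))) c_th2 = true := by decide +kernel

theorem th2 {R : Type*} [Ring R] {G : Subgroup Rˣ} (h2 : ∀ r : R, r + r = 0)
    (hc : ∀ u : Rˣ, u ∈ G → ((u : R) + 1) ^ 3 = 0) {x y : Rˣ} (hx : x ∈ G) (hy : y ∈ G) :
    (((x : R) + ((x⁻¹ : Rˣ) : R)) * (((y : R) + ((y⁻¹ : Rˣ) : R)) * (((x : R) + 1) * ((y : R) + 1))))
      = (((x : R) + ((x⁻¹ : Rˣ) : R)) * (((y : R) + 1) * (((x : R) + 1) * ((y : R) + ((y⁻¹ : Rˣ) : R))))) := by
  have h := chy_eq (mkOk h2 hc hx hy hx (PL.zero G) (PL.zero G) (PL.zero G) (PL.zero G)) _ _ c_th2 ok_th2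
  simp only [ev_add, ev_mul, ev_tau, ev_sig, ev_sigs, evT, evL, rho, mul_one, add_zero] at h
  simpa only [tau, sig, sigs, Units.val_mul, mul_inv_rev, inv_inv, mul_assoc] using h

end E4.RC
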