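import Pool.Agent.Lib.MP_8a95e3_al.RC2
import Pool.Agent.Lib.MP_8a95e3_al.RK.Defs

set_option linter.unusedSimpArgs false

namespace E4.RC

def c_K_a1 : List ℕ := [
  0x100000000001300000000000100000000013309840000000000010000000000010000000000120000000001390083000000000183000000000001000000000012000000000001009300000001398300000000000100000000001200000000000100020000000000010000000000120000000000010000000000130984000000000012000000000012000000000012000000000001089400000000129200000000000100000000001200000000000100830000000001930000000000010000000000130000000000130083000000000001000000000001000000000012000000001829000200000000000100000000001300000000000100000000001309840000000000120000000000010000000000130000000000190083000000000018000000000001000000000012000000000001009300000000000100000000001200000000000100000000000109840000000138390000000000010000000000120000000000010002000000000012000000000001000000000012000000000182009300000000001200000000000100000000001200000000001800930000000000010000000000010000000000120000000001890002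
  ]

theorem ok_K_a1 : chy (addP (tauP [[8]] [[9]] [[3]] [[2]]) (tauP [[8]] [[9]] [[2]] [[3]])) c_K_a1 = true := by decide +kernel

theorem K_a1 {R : Type*} [Ring R] {G : Subgroup Rˣ} (h2 : ∀ r : R, r + r = 0)
    (hc : ∀ u : Rˣ, u ∈ G → ((u : R) + 1) ^ 3 = 0) {x : Rˣ} (hx : x ∈ G) {p q : R} (hp : PL G p) (hq : PL G q) :
    (tau p q (x⁻¹))
      = (tau p q x) := by
  have h := chy_eq (mkOk h2 hc hx hx hx hp hq (PL.zero G) (PL.zero G)) _ _ c_K_a1 ok_K_a1
  simp only [ev_add, ev_mul, ev_tau, ev_sig, ev_sigs, evT, evL, rho, mul_one, add_zero] at h
  simpa only [tau, sig, sigs, Units.val_mul, mul_inv_rev, inv_inv, mul_assoc] using h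

end E4.RC
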