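import Pool.Agent.Lib.MP_8a95e3_al.RC2
import Pool.Agent.Lib.MP_8a95e3_al.RK.Defs

set_option linter.unusedSimpArgs false

namespace E4.RC

def c_K_a2 : List ℕ := [
  0x120000000000010000000000120000000001930083000000000012000000000001000000000013000000000019008300000000001300000000001200000000013300000000000108940000000000010000000000010000000000120000000013820093000000000001000000000013000000000001000000000133098400000000001200000000001200000000001200000000000108940000000000130000000000010000000000130000000001380093000000013829000000000001000000000012000000000001000200000000013900000000000100000000001200000000133800020000000000010000000000010000000000130000000133830093000000001293000000000001000000000013000000000013008300000000019300000000000100000000001200000000001300830000000138920000000000010000000000120000000000010002000000000001000000000012000000000001000000000001098400000000000100000000000100000000001200000000000108940000000001930000000000010000000000120000000000180002000000000019000000000001000000000013000000000013008300000000012900000000000100000000001200000000000100830000000000010000000001330000000000010000000001330984000000138933000000000001000000000012000000000001000200000000129200000000000100000000001200000000000100830000000000130000000000010000000000120000000012890002000000000001000000000001000000000012000000001829000200000001389300000000000100000000001200000000000100020000000000010000000000130000000000010000000000130984000000000012000000000001000000000012000000000019008300000000013800000000000100000000001200000000001300930000000000120000000000010000000000120000000000010894000000000012000000000001000000000012000000000018009300000000001200000000000100000000001200000000018200930000000000130000000000010000000000120000000001890002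
  ]

theorem ok_K_a2 : chy (addP (mulP [[2]] (tauP [[8]] [[9]] [[2]] [[3]])) (mulP (tauP [[8]] [[9]] [[2]] [[3]]) [[2]])) c_K_a2 = true := by decide +kernel

theorem K_a2 {R : Type*} [Ring R] {G : Subgroup Rˣ} (h2 : ∀ r : R, r + r = 0)
    (hc : ∀ u : Rˣ, u ∈ G → ((u : R) + 1) ^ 3 = 0) {x : Rˣ} (hx : x ∈ G) {p q : R} (hp : PL G p) (hq : PL G q) :
    ((x : R) * (tau p q x))
      = ((tau p q x) * (x : R)) := by
  have h := chy_eq (mkOk h2 hc hx hx hx hp hq (PL.zero G) (PL.zero G)) _ _ c_K_a2 ok_K_a2
  simp only [ev_add, ev_mul, ev_tau, ev_sig, ev_sigs, evT, evL, rho, mul_one, add_zero] at h
  simpa only [tau, sig, sigs, Units.val_mul, mul_inv_rev, inv_inv, mul_assoc] using h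

end E4.RC
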