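import Pool.Agent.Lib.MP_8a95e3_al.RC2
import Pool.Agent.Lib.MP_8a95e3_al.RK.Defs

set_option linter.unusedSimpArgs false

namespace E4.RC

def c_C3 : List ℕ := [
  0x13430000000000010000000000120000000000010002000000000013000000000001000000000012000000000124000200000000000100000000000100000000001200000000012400020000000000150000000000010000000001340000000000130002000000000001000000000001000000001335000000000012000200000000001500000000000100000000012400000000000100020000000000150000000000010000000013340000000000010002000000013433000000000001000000000012000000000001000200000000013500000000000100000000001200000000013500020000000000150000000000010000000000120000000000150002000000000013000000000001000000000012000000000134000200000000001500000000000100000000001400000000001300020000000000150000000000010000000001340000000000010002000000000013000000000001000000000012000000000014000200000000000100000000000100000000013500000000000100020000000000150000000000010000000000140000000000010002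
  ]

theorem ok_C3 : chy (addP (mulP (addP [[2]] [[3]]) (mulP [[4]] (addP [[2]] [[3]]))) []) c_C3 = true := by decide +kernel

theorem C3 {R : Type*} [Ring R] {G : Subgroup Rˣ} (h2 : ∀ r : R, r + r = 0)
    (hc : ∀ u : Rˣ, u ∈ G → ((u : R) + 1) ^ 3 = 0) {x y : Rˣ} (hx : x ∈ G) (hy : y ∈ G) :
    (((x : R) + ((x⁻¹ : Rˣ) : R)) * ((y : R) * ((x : R) + ((x⁻¹ : Rˣ) : R))))
      = 0 := by
  have h := chy_eq (mkOk h2 hc hx hy hx (PL.zero G) (PL.zero G) (PL.zero G) (PL.zero G)) _ _ c_C3 ok_C3
  simp only [ev_add, ev_mul, ev_tau, ev_sig, ev_sigs, evT, evL, rho, mul_one, add_zero] at h
  simpa only [tau, sig, sigs, Units.val_mul, mul_inv_rev, inv_inv, mul_assoc] using h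

end E4.RC
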