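import Pool.Agent.Lib.MP_8a95e3_al.RC2
import Pool.Agent.Lib.MP_8a95e3_al.RK.Defs

set_option linter.unusedSimpArgs false

namespace E4.RC

def c_fe : List ℕ := [
  0x120000000000010000000000120000000000010894000000000012000000000001000000000012000000000019008300000000001200000000000100000000001200000000000109840000000001830000000000010000000000120000000000010093000000000001000000000001000000000012000000000001098400000000138300000000000100000000001200000000001900020000000000010000000000010000000000120000000001980002000000000122000000000001000000000013000000000198000200000000012200000000000100000000001200000000001900830000000000010000000000010000000000120000000001930083000000000018000000000001000000000013000000000001009300000000129200000000000100000000001200000000000100830000000000120000000000120000000000120000000000010894000000000018000000000001000000000013000000000133009300000001339800000000000100000000001200000000000100020000000000130000000000010000000000130000000001380093000000000013000000000012000000000001000000000001089400000000001300000000000100000000013300000000001800930000000013930000000000010000000000120000000000180002000000000013000000000001000000000013000000000018009300000000013300000000000100000000001200000000018900020000000000010000000000010000000000120000000001820093000000000001000000000001000000000013000000000018009300000001383900000000000100000000001200000000000100020000000001290000000000010000000000120000000000010083000000000019000000000001000000000013000000000013008300000000001900000000000100000000001200000000001300830000000013890000000000010000000000120000000000010002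
  ]

theorem ok_fe : chy (addP (mulP (addP [[2]] [[]]) (addP (mulP [[9]] (mulP [[8]] (addP [[2]] [[3]]))) (mulP [[8]] (mulP (addP [[2]] [[3]]) [[9]])))) (addP (mulP (addP [[2]] [[3]]) (mulP [[8]] (mulP [[9]] (addP [[2]] [[]])))) (mulP (addP [[2]] [[3]]) (mulP [[9]] (mulP (addP [[2]] [[]]) [[8]]))))) c_fe = true := by decide +kernel

theorem fe {R : Type*} [Ring R] {G : Subgroup Rˣ} (h2 : ∀ r : R, r + r = 0)
    (hc : ∀ u : Rˣ, u ∈ G → ((u : R) + 1) ^ 3 = 0) {x : Rˣ} (hx : x ∈ G) {p q : R} (hp : PL G p) (hq : PL G q) :
    (((x : R) + 1) * ((q * (p * ((x : R) + ((x⁻¹ : Rˣ) : R)))) + (p * (((x : R) + ((x⁻¹ : Rˣ) : R)) * q))))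
      = ((((x : R) + ((x⁻¹ : Rˣ) : R)) * (p * (q * ((x : R) + 1)))) + (((x : R) + ((x⁻¹ : Rˣ) : R)) * (q * (((x : R) + 1) * p)))) := by
  have h := chy_eq (mkOk h2 hc hx hx hx hp hq (PL.zero G) (PL.zero G)) _ _ c_fe ok_fe
  simp only [ev_add, ev_mul, ev_tau, ev_sig, ev_sigs, evT, evL, rho, mul_one, add_zero] at h
  simpa only [tau, sig, sigs, Units.val_mul, mul_inv_rev, inv_inv, mul_assoc] using h

end E4.RC
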