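import Pool.Agent.Lib.MP_8a95e3_al.RC2
import Pool.Agent.Lib.MP_8a95e3_al.RK.Defs

set_option linter.unusedSimpArgs false

namespace E4.RC

def c_D_BB : List ℕ := [
  0x1800000000000100000000001300000000000100930000000000010000000000120000000000010000000000120984
  ]

theorem ok_D_BB : chy (addP (addP (mulP [[2]] (mulP [[8]] (mulP [[9]] [[2]]))) (addP (mulP [[8]] (mulP [[3]] [[9]])) (addP (mulP [[9]] (mulP [[3]] [[8]])) (addP (mulP [[3]] (mulP [[9]] [[8]])) (addP (mulP [[9]] (mulP [[8]] [[3]])) (mulP [[9]] [[8]])))))) []) c_D_BB = true := by decide +kernel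

theorem D_BB {R : Type*} [Ring R] {G : Subgroup Rˣ} (h2 : ∀ r : R, r + r = 0)
    (hc : ∀ u : Rˣ, u ∈ G → ((u : R) + 1) ^ 3 = 0) {x : Rˣ} (hx : x ∈ G) {p q : R} (hp : PL G p) (hq : PL G q) :
    (((x : R) * (p * (q * (x : R)))) + ((p * (((x⁻¹ : Rˣ) : R) * q)) + ((q * (((x⁻¹ : Rˣ) : R) * p)) + ((((x⁻¹ : Rˣ) : R) * (q * p)) + ((q * (p * ((x⁻¹ : Rˣ) : R))) + (q * p))))))
      = 0 := by
  have h := chy_eq (mkOk h2 hc hx hx hx hp hq (PL.zero G) (PL.zero G)) _ _ c_D_BB ok_D_BB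
  simp only [ev_add, ev_mul, ev_tau, ev_sig, ev_sigs, evT, evL, rho, mul_one, add_zero] at h
  simpa only [tau, sig, sigs, Units.val_mul, mul_inv_rev, inv_inv, mul_assoc] using h

end E4.RC
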