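import Pool.Agent.Lib.MP_8a95e3_al.RC2
import Pool.Agent.Lib.MP_8a95e3_al.RK.Defs

set_option linter.unusedSimpArgs false

namespace E4.RC

def c_D_K2r : List ℕ := [
  0x130000000000010000000001420000000000010002000000000014000000000001000000000012000000000124000200000000000100000000000100000000001200000000000100020000000000010000000000010000000001520000000001240002000000000001000000000001000000001224000000000013000200000000000100000000000100000000001300000000013500020000000001520000000000010000000000120000000000010002000000000135000000000001000000000015000000000001000200000000000100000000000100000000001400000000014300020000000001340000000000010000000001520000000000120002000000000135000000000001000000000142000000000012000200000000001400000000000100000000001200000000000100020000000000130000000000010000000001420000000000120002000000000124000000000001000000000014000000000012000200000000001400000000000100000000015200000000001400020000000001350000000000010000000014420000000000120002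
  ]

theorem ok_D_K2r : chy (addP (mulP (mulP (addP [[2]] [[]]) (mulP [[4]] (addP [[2]] [[]]))) (addP [[4]] [[]])) (addP (addP [[2]] [[3]]) (addP (mulP (addP [[4]] [[5]]) (addP [[2]] [[3]])) (mulP (addP [[2]] [[3]]) [[4]])))) c_D_K2r = true := by decide +kernel

theorem D_K2r {R : Type*} [Ring R] {G : Subgroup Rˣ} (h2 : ∀ r : R, r + r = 0)
    (hc : ∀ u : Rˣ, u ∈ G → ((u : R) + 1) ^ 3 = 0) {x y : Rˣ} (hx : x ∈ G) (hy : y ∈ G) :
    ((((x : R) + 1) * ((y : R) * ((x : R) + 1))) * ((y : R) + 1))
      = (((x : R) + ((x⁻¹ : Rˣ) : R)) + ((((y : R) + ((y⁻¹ : Rˣ) : R)) * ((x : R) + ((x⁻¹ : Rˣ) : R))) + (((x : R) + ((x⁻¹ : Rˣ) : R)) * (y : R)))) := by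
  have h := chy_eq (mkOk h2 hc hx hy hx (PL.zero G) (PL.zero G) (PL.zero G) (PL.zero G)) _ _ c_D_K2r ok_D_K2r
  simp only [ev_add, ev_mul, ev_tau, ev_sig, ev_sigs, evT, evL, rho, mul_one, add_zero] at h
  simpa only [tau, sig, sigs, Units.val_mul, mul_inv_rev, inv_inv, mul_assoc] using h

end E4.RC
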