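import Pool.Agent.Lib.MP_8a95e3_al.RC2
import Pool.Agent.Lib.MP_8a95e3_al.RK.Defs

set_option linter.unusedSimpArgs false

namespace E4.RC

def c_C2 : List ℕ := [
  0x130000000000010000000000120000000001240002000000000013000000000001000000000012000000000134000200000001343300000000000100000000001200000000000100020000000000130000000000010000000000120000000000140002000000000015000000000001000000001334000000000001000200000000001500000000000100000000012400000000000100020000000000150000000000010000000000120000000000150002000000000015000000000001000000000134000000000001000200000000001500000000000100000000001400000000000100020000000000130000000000010000000000120000000000010002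
  ]

theorem ok_C2 : chy (addP (mulP (addP [[2]] [[3]]) (mulP [[4]] (addP [[2]] [[]]))) (mulP (addP [[2]] [[]]) (mulP [[4]] (addP [[2]] [[3]])))) c_C2 = true := by decide +kernel

theorem C2 {R : Type*} [Ring R] {G : Subgroup Rˣ} (h2 : ∀ r : R, r + r = 0)
    (hc : ∀ u : Rˣ, u ∈ G → ((u : R) + 1) ^ 3 = 0) {x y : Rˣ} (hx : x ∈ G) (hy : y ∈ G) :
    (((x : R) + ((x⁻¹ : Rˣ) : R)) * ((y : R) * ((x : R) + 1)))
      = (((x : R) + 1) * ((y : R) * ((x : R) + ((x⁻¹ : Rˣ) : R)))) := by
  have h := chy_eq (mkOk h2 hc hx hy hx (PL.zero G) (PL.zero G) (PL.zero G) (PL.zero G)) _ _ c_C2 ok_C2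
  simp only [ev_add, ev_mul, ev_tau, ev_sig, ev_sigs, evT, evL, rho, mul_one, add_zero] at h
  simpa only [tau, sig, sigs, Units.val_mul, mul_inv_rev, inv_inv, mul_assoc] using h

end E4.RC
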