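import Pool.Agent.Lib.MP_8a95e3_al.RK.Defs

/-! Ring forms of the elements used in the closure of the T-ideal generated by `t_2, c_3, c_4` under `K` (helper69). -/
namespace E4.RC

section
variable {R : Type*} [Ring R]

/-- `n(v) = v p q + p v q v'` -/
def nn (p q : R) (v : Rˣ) : R := v * (p * q) + p * (v * (q * ((v⁻¹ : Rˣ) : R)))

/-- `e(v)` -/
def eo (p q : R) (v : Rˣ) : R :=
  (v + ((v⁻¹ : Rˣ) : R)) * (p * (q * (v + 1))) + (v + ((v⁻¹ : Rˣ) : R)) * (q * ((v + 1) * p))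

/-- value of `K` on `u_2` -/
def uK (p q : R) (g h : Rˣ) : R :=
  (g + 1) * ((((h⁻¹ : Rˣ) : R) + 1) * tau p q g) + (h + 1) * ((((g⁻¹ : Rˣ) : R) + 1) * tau p q h)

/-- the bilinear part of `tt g (x (1 + p)) (1 + q) + tt g x (1 + q)` -/
def Nh (p q : R) (x g : Rˣ) : R :=
  x * (p * (q * ((((g⁻¹ : Rˣ) : R) + 1) * (x + ((x⁻¹ : Rˣ) : R)))))
  + x * (q * ((((g⁻¹ : Rˣ) : R) + 1) * (x * p + p * ((x⁻¹ : Rˣ) : R))))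
  + x * (p * ((((g⁻¹ : Rˣ) : R) + 1) * (x * q + q * ((x⁻¹ : Rˣ) : R))))
  + (x + 1) * ((((g⁻¹ : Rˣ) : R) + 1) * (x * (p * q) + q * (p * ((x⁻¹ : Rˣ) : R))))
  + (g + 1) * (q * (p * (((x⁻¹ : Rˣ) : R) * (g + ((g⁻¹ : Rˣ) : R)))))
  + (x * (p * ((((g⁻¹ : Rˣ) : R) + 1) * (x + ((x⁻¹ : Rˣ) : R))))
      + ((x + 1) * ((((g⁻¹ : Rˣ) : R) + 1) * (x * p + p * ((x⁻¹ : Rˣ) : R)))
      + (g + 1) * (p * (((x⁻¹ : Rˣ) : R) * (g + ((g⁻¹ : Rˣ) : R)))))) * q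
  + (g + 1) * (x * (p * (q * (x + ((x⁻¹ : Rˣ) : R))))
      + (x + 1) * (q * (x * p + p * ((x⁻¹ : Rˣ) : R))))

end

end E4.RC
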