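import Pool.Agent.Lib.MP_8a95e3_al.RC2
import Pool.Agent.Lib.MP_8a95e3_al.RK.HD

/-! The checker for targets which contain words with a repeated P-letter (helper69). -/
namespace E4.RC

/-- `c` occurs in the word -/
def has1 (c : ℕ) : List ℕ → Bool
  | [] => false
  | d :: l => bif Nat.beq d c then true else has1 c l

/-- `c` occurs at least twice in the word -/
def has2 (c : ℕ) : List ℕ → Bool
  | [] => false
  | d :: l => bif Nat.beq d c then has1 c l else has2 c l

/-- drop the words which contain `p` twice or `q` twice -/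
def kil : List (List ℕ) → List (List ℕ)
  | [] => []
  | l :: t => bif has2 8 l || has2 9 l then kil t else l :: kil t

section
variable {R : Type*} [Ring R]

/-- `u_2(g, h)` as a polynomial in `g, g⁻¹, h, h⁻¹` -/
def u2R (g gi h hi : R) : R := (g + 1) * ((hi + 1) * (g + gi)) + (h + 1) * ((gi + 1) * (h + hi))

/-- `T^(g; h, y)` -/
def ttR (g gi h hi y yi : R) : R :=
  u2R (h * y) (yi * hi) g gi + u2R h hi g gi + u2R y yi g gi + u2R h hi g gi * (y + 1)
    + (g + 1) * ((h + 1) * ((yi + 1) * (h + hi)))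

/-- `κ(a, h)` -/
def kapR (a ai h hi : R) : R :=
  (a + 1) * ((h + 1) * (a + 1)) + (a + 1) * ((h + hi) * (a + ai)) + (a + ai) * (hi + 1) + (hi + 1) * (a + ai)
    + (h + 1) * ((a + ai) * (h + hi))

/-- value of `K` on `κ(x, y)` (up to the value on a cube) -/
def kaK (p q : R) (x y : Rˣ) : R :=
  (x + 1) * (tau p q (y * x) + (tau p q x * y + ((x⁻¹ : Rˣ) : R) * tau p q y))
    + (tau p q x * (y + 1) + ((x + 1) * (tau p q y * (x + ((x⁻¹ : Rˣ) : R)))
      + (tau p q x * (((y⁻¹ : Rˣ) : R) + 1) + ((((y⁻¹ : Rˣ) : R) + 1) * tau p q x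
        + (y + 1) * (tau p q x * (y + ((y⁻¹ : Rˣ) : R)))))))

end

section
variable {R : Type*} [Ring R] {ρ : ℕ → R} {G : Subgroup Rˣ}

theorem has1_ev (c : ℕ) (l : List ℕ) (h : has1 c l = true) : ∃ r s : R, evL ρ l = r * ρ c * s := by
  induction l with
  | nil => simp [has1] at h
  | cons d l ih =>
    unfold has1 at h
    cases hb : Nat.beq d c
    · rw [hb, cond_false] at h
      obtain ⟨r, s, e⟩ := ih h
      exact ⟨ρ d * r, s, by rw [evL, e]; simp only [mul_assoc]⟩
    · have e := Nat.eq_of_beq_eq_true hb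
      subst e
      exact ⟨1, evL ρ l, by rw [evL, one_mul]⟩

theorem has2_ev (c : ℕ) (hc : ∀ r : R, ρ c * r * ρ c = 0) (l : List ℕ) (h : has2 c l = true) : evL ρ l = 0 := by
  induction l with
  | nil => simp [has2] at h
  | cons d l ih =>
    unfold has2 at h
    cases hb : Nat.beq d c
    · rw [hb, cond_false] at h
      rw [evL, ih h, mul_zero]
    · rw [hb, cond_true] at h
      have e := Nat.eq_of_beq_eq_true hb
      subst e
      obtain ⟨r, s, e⟩ := has1_ev (ρ := ρ) d l h
      rw [evL, e, ← mul_assoc, ← mul_assoc, hc, zero_mul]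

theorem kil_ev (h8 : ∀ r : R, ρ 8 * r * ρ 8 = 0) (h9 : ∀ r : R, ρ 9 * r * ρ 9 = 0) (t : List (List ℕ)) :
    evT ρ (kil t) = evT ρ t := by
  induction t with
  | nil => rfl
  | cons l t ih =>
    unfold kil
    cases hb : has2 8 l || has2 9 l
    · rw [cond_false, evT, evT, ih]
    · rw [cond_true, evT, ih]
      rcases Bool.or_eq_true _ _ ▸ hb with h | h
      · rw [has2_ev 8 h8 l h, zero_add]
      · rw [has2_ev 9 h9 l h, zero_add]

theorem chz_eq (H : Ok ρ G) (h8 : ∀ r : R, ρ 8 * r * ρ 8 = 0) (h9 : ∀ r : R, ρ 9 * r * ρ 9 = 0)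
    (a b : List (List ℕ)) (c : List ℕ) (hc : chy (kil (addP a b)) c = true) : evT ρ a = evT ρ b := by
  have h := chy_sound H _ c hc
  rw [kil_ev h8 h9, ev_add] at h
  exact eq_of_two H.two h

end

end E4.RC
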