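import Pool.Agent.Lib.MP_8a95e3_al.RK.HK

set_option linter.unusedSimpArgs false

namespace E4.RC

def c_H_F1e : List ℕ := [
  ]

theorem ok_H_F1e : chy (kil (addP (addP (addP (addP (addP (addP (addP (mulP (addP (mulP (mulP [[2]] (addP [[]] [[8]])) (addP [[]] [[9]])) [[]]) (mulP (addP [[5]] [[]]) (addP (mulP (mulP [[2]] (addP [[]] [[8]])) (addP [[]] [[9]])) (mulP (addP [[]] [[9]]) (mulP (addP [[]] [[8]]) [[3]]))))) (mulP (addP [[4]] [[]]) (mulP (addP (mulP (addP [[]] [[9]]) (mulP (addP [[]] [[8]]) [[3]])) [[]]) (addP [[4]] [[5]])))) (addP (mulP (addP (mulP [[2]] (addP [[]] [[8]])) [[]]) (mulP (addP [[5]] [[]]) (addP (mulP [[2]] (addP [[]] [[8]])) (mulP (addP [[]] [[8]]) [[3]])))) (mulP (addP [[4]] [[]]) (mulP (addP (mulP (addP [[]] [[8]]) [[3]]) [[]]) (addP [[4]] [[5]]))))) (addP (mulP (addP (addP [[]] [[9]]) [[]]) (mulP (addP [[5]] [[]]) (addP (addP [[]]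 [[9]]) (addP [[]] [[9]])))) (mulP (addP [[4]] [[]]) (mulP (addP (addP [[]] [[9]]) [[]]) (addP [[4]] [[5]]))))) (mulP (addP (mulP (addP (mulP [[2]] (addP [[]] [[8]])) [[]]) (mulP (addP [[5]] [[]]) (addP (mulP [[2]] (addP [[]] [[8]])) (mulP (addP [[]] [[8]]) [[3]])))) (mulP (addP [[4]] [[]]) (mulP (addP (mulP (addP [[]] [[8]]) [[3]]) [[]]) (addP [[4]] [[5]])))) (addP (addP [[]] [[9]]) [[]]))) (mulP (addP [[4]] [[]]) (mulP (addP (mulP [[2]] (addP [[]] [[8]])) [[]]) (mulP (addP (addP [[]] [[9]]) [[]]) (addP (mulP [[2]] (addP [[]] [[8]])) (mulP (addP [[]] [[8]]) [[3]])))))) (addP (addP (addP (addP (addP (mulP (addP (mulP [[2]] (addP [[]] [[9]])) [[]]) (mulP (addP [[5]] [[]]) (addP (mulP [[2]] (addP [[]] [[9]])) (mulP (addP [[]] [[9]]) [[3]])))) (mulP (addP [[4]] [[]]) (mulP (addP (mulP (addP [[]] [[9]]) [[3]]) [[]]) (addP [[4]] [[5]])))) (addP (mulP (addP [[2]]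 [[]]) (mulP (addP [[5]] [[]]) (addP [[2]] [[3]]))) (mulP (addP [[4]] [[]]) (mulP (addP [[3]] [[]]) (addP [[4]] [[5]]))))) (addP (mulP (addP (addP [[]] [[9]]) [[]]) (mulP (addP [[5]] [[]]) (addP (addP [[]] [[9]]) (addP [[]] [[9]])))) (mulP (addP [[4]] [[]]) (mulP (addP (addP [[]] [[9]]) [[]]) (addP [[4]] [[5]]))))) (mulP (addP (mulP (addP [[2]] [[]]) (mulP (addP [[5]] [[]]) (addP [[2]] [[3]]))) (mulP (addP [[4]] [[]]) (mulP (addP [[3]] [[]]) (addP [[4]] [[5]])))) (addP (addP [[]] [[9]]) [[]]))) (mulP (addP [[4]] [[]]) (mulP (addP [[2]] [[]]) (mulP (addP (addP [[]] [[9]]) [[]]) (addP [[2]] [[3]])))))) (addP (addP (addP (addP (addP (addP (mulP [[2]] (mulP [[8]] (mulP [[9]] (mulP (addP [[5]] [[]]) (addP [[2]] [[3]]))))) (mulP [[2]] (mulP [[9]] (mulP (addP [[5]] [[]]) (addP (mulP [[2]] [[8]]) (mulP [[8]] [[3]])))))) (mulP [[2]] (mulP [[8]] (mulP (addP [[5]]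 [[]]) (addP (mulP [[2]] [[9]]) (mulP [[9]] [[3]])))))) (mulP (addP [[2]] [[]]) (mulP (addP [[5]] [[]]) (addP (mulP [[2]] (mulP [[8]] [[9]])) (mulP [[9]] (mulP [[8]] [[3]])))))) (mulP (addP [[4]] [[]]) (mulP [[9]] (mulP [[8]] (mulP [[3]] (addP [[4]] [[5]])))))) (mulP (addP (mulP [[2]] (mulP [[8]] (mulP (addP [[5]] [[]]) (addP [[2]] [[3]])))) (addP (mulP (addP [[2]] [[]]) (mulP (addP [[5]] [[]]) (addP (mulP [[2]] [[8]]) (mulP [[8]] [[3]])))) (mulP (addP [[4]] [[]]) (mulP [[8]] (mulP [[3]] (addP [[4]] [[5]])))))) [[9]])) (mulP (addP [[4]] [[]]) (addP (mulP [[2]] (mulP [[8]] (mulP [[9]] (addP [[2]] [[3]])))) (mulP (addP [[2]] [[]]) (mulP [[9]] (addP (mulP [[2]] [[8]]) (mulP [[8]] [[3]]))))))))) c_H_F1e = true := by decide +kernel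

theorem H_F1e {R : Type*} [Ring R] {G : Subgroup Rˣ} (h2 : ∀ r : R, r + r = 0)
    (hc : ∀ u : Rˣ, u ∈ G → ((u : R) + 1) ^ 3 = 0) {x y : Rˣ} (hx : x ∈ G) (hy : y ∈ G) {p q : R} (hp : PL G p) (hq : PL G q) :
    ((ttR (y : R) ((y⁻¹ : Rˣ) : R) ((x : R) * (1 + p)) ((1 + p) * ((x⁻¹ : Rˣ) : R)) (1 + q) (1 + q)) + (ttR (y : R) ((y⁻¹ : Rˣ) : R) (x : R) ((x⁻¹ : Rˣ) : R) (1 + q) (1 + q)))
      = (Nh p q x y) := by
  have h := chz_eq (mkOk h2 hc hx hy hx hp hq (PL.zero G) (PL.zero G)) hp.sq hq.sq _ _ c_H_F1e ok_H_F1e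
  simp only [ev_add, ev_mul, ev_tau, ev_sig, ev_sigs, evT, evL, rho, mul_one, add_zero] at h
  simpa only [kaK, kapR, ttR, u2R, Nh, nn, eo, uK, tau, sig, sigs, Units.val_mul, mul_inv_rev, inv_inv, mul_assoc] using h

end E4.RC
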