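import Pool.Agent.Lib.MP_8a95e3_al.RC2
import Pool.Agent.Lib.MP_8a95e3_al.RK.Defs

set_option linter.unusedSimpArgs false

namespace E4.RC

def c_M_TF : List ℕ := [
  0x100000000000100000000001300000000012800020000000000010000000000010000000000130000000000180002000000001833000000000001000000000013000000000001000200000000000100000000000100000000001200000000001800020000000000010000000000010000000001220000000000010083000000000001000000000001000000000013000000000138000200000000001800000000000100000000001200000000000100020000000000010000000000010000000000120000000000010083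
  ]

theorem ok_M_TF : chy (addP (mulP (addP [[2]] [[]]) (mulP [[8]] (addP [[2]] [[3]]))) (addP (addP (addP (mulP [[2]] [[8]]) (mulP [[8]] [[3]])) (mulP [[3]] (mulP [[8]] [[2]]))) [[8]])) c_M_TF = true := by decide +kernel

theorem M_TF {R : Type*} [Ring R] {G : Subgroup Rˣ} (h2 : ∀ r : R, r + r = 0)
    (hc : ∀ u : Rˣ, u ∈ G → ((u : R) + 1) ^ 3 = 0) {x : Rˣ} (hx : x ∈ G) {p : R} (hp : PL G p) :
    (((x : R) + 1) * (p * ((x : R) + ((x⁻¹ : Rˣ) : R))))
      = (((((x : R) * p) + (p * ((x⁻¹ : Rˣ) : R))) + (((x⁻¹ : Rˣ) : R) * (p * (x : R)))) + p) := by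
  have h := chy_eq (mkOk h2 hc hx hx hx hp (PL.zero G) (PL.zero G) (PL.zero G)) _ _ c_M_TF ok_M_TF
  simp only [ev_add, ev_mul, ev_tau, ev_sig, ev_sigs, evT, evL, rho, mul_one, add_zero] at h
  simpa only [tau, sig, sigs, Units.val_mul, mul_inv_rev, inv_inv, mul_assoc] using h

end E4.RC
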