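import Pool.Agent.Lib.MP_8a95e3_al.RC2
import Pool.Agent.Lib.MP_8a95e3_al.RK.Defs

set_option linter.unusedSimpArgs false

namespace E4.RC

def c_M_Y0 : List ℕ := [
  0x1000000000001000000000014000000000012000200000000000100000000000100000000015200000000012400020000000001520000000000010000000000120000000000010002000000000013000000000001000000000142000000000001000200000000000100000000000100000000001300000000013500020000000000140000000000010000000000120000000001240002000000000001000000000001000000001224000000000013000200000000001400000000000100000000001200000000000100020000000001340000000000010000000001520000000000120002000000000001000000000001000000000014000000000143000200000000013500000000000100000000001500000000000100020000000001350000000000010000000001420000000000120002000000000124000000000001000000000014000000000012000200000000001400000000000100000000015200000000001400020000000001350000000000010000000014420000000000120002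
  ]

theorem ok_M_Y0 : chy (addP (addP (addP (addP (addP (mulP (addP [[2]] [[]]) (mulP (addP [[4]] [[]]) (addP [[2]] [[]]))) (mulP (addP [[2]] [[]]) (mulP (addP [[4]] [[5]]) (addP [[2]] [[3]])))) (mulP (addP [[2]] [[3]]) (addP [[5]] [[]]))) (mulP (addP [[5]] [[]]) (addP [[2]] [[3]]))) (mulP (addP [[4]] [[]]) (mulP (addP [[2]] [[3]]) (addP [[4]] [[5]])))) (addP (addP (addP (addP (mulP (addP [[4]] [[]]) (mulP (addP [[2]] [[]]) (addP [[4]] [[]]))) (mulP (addP [[4]] [[]]) (mulP (addP [[2]] [[3]]) (addP [[4]] [[5]])))) (mulP (addP [[4]] [[5]]) (addP [[3]] [[]]))) (mulP (addP [[3]] [[]]) (addP [[4]] [[5]]))) (mulP (addP [[2]] [[]]) (mulP (addP [[4]] [[5]]) (addP [[2]] [[3]]))))) c_M_Y0 = true := by decide +kernel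

theorem M_Y0 {R : Type*} [Ring R] {G : Subgroup Rˣ} (h2 : ∀ r : R, r + r = 0)
    (hc : ∀ u : Rˣ, u ∈ G → ((u : R) + 1) ^ 3 = 0) {x y : Rˣ} (hx : x ∈ G) (hy : y ∈ G) :
    (((((((x : R) + 1) * (((y : R) + 1) * ((x : R) + 1))) + (((x : R) + 1) * (((y : R) + ((y⁻¹ : Rˣ) : R)) * ((x : R) + ((x⁻¹ : Rˣ) : R))))) + (((x : R) + ((x⁻¹ : Rˣ) : R)) * (((y⁻¹ : Rˣ) : R) + 1))) + ((((y⁻¹ : Rˣ) : R) + 1) * ((x : R) + ((x⁻¹ : Rˣ) : R)))) + (((y : R) + 1) * (((x : R) + ((x⁻¹ : Rˣ) : R)) * ((y : R) + ((y⁻¹ : Rˣ) : R)))))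
      = (((((((y : R) + 1) * (((x : R) + 1) * ((y : R) + 1))) + (((y : R) + 1) * (((x : R) + ((x⁻¹ : Rˣ) : R)) * ((y : R) + ((y⁻¹ : Rˣ) : R))))) + (((y : R) + ((y⁻¹ : Rˣ) : R)) * (((x⁻¹ : Rˣ) : R) + 1))) + ((((x⁻¹ : Rˣ) : R) + 1) * ((y : R) + ((y⁻¹ : Rˣ) : R)))) + (((x : R) + 1) * (((y : R) + ((y⁻¹ : Rˣ) : R)) * ((x : R) + ((x⁻¹ : Rˣ) : R))))) := by
  have h := chy_eq (mkOk h2 hc hx hy hx (PL.zero G) (PL.zero G) (PL.zero G) (PL.zero G)) _ _ c_M_Y0 ok_M_Y0
  simp only [ev_add, ev_mul, ev_tau, ev_sig, ev_sigs, evT, evL, rho, mul_one, add_zero] at h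
  simpa only [tau, sig, sigs, Units.val_mul, mul_inv_rev, inv_inv, mul_assoc] using h

end E4.RC
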